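import Pool.Agent.R573.TT.Defs

/-!
# Monotone algebras over linear orders
-/

set_option autoImplicit false

namespace Pool.Agent.R573.TT

universe u v

/-- Value of a term in an algebra. -/
def Term.eval {S : Sig.{u}} {V : Type} {C : Type v} (op : ∀ f : S.Op, (Fin (S.ar f) → C) → C)
    (ρ : V → C) : Term S V → C
  | .var x => ρ x
  | .app f ts => op f fun i => (ts i).eval op ρ

/-- The algebra is strictly monotone and satisfies all rules. -/
structure Good {S : Sig.{u}} (R : Set (Term S ℕ × Term S ℕ)) {C : Type v} [LinearOrder C]
    (op : ∀ f : S.Op, (Fin (S.ar f) → C) → C) : Prop where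
  mono : ∀ f (c : Fin (S.ar f) → C) i x, x < c i → op f (Function.update c i x) < op f c
  rule : ∀ p ∈ R, ∀ ρ : ℕ → C, p.2.eval op ρ < p.1.eval op ρ

theorem Good.le_op {S : Sig.{u}} {R : Set (Term S ℕ × Term S ℕ)} {C : Type v} [LinearOrder C]
    [WellFoundedLT C] {op : ∀ f : S.Op, (Fin (S.ar f) → C) → C} (h : Good R op)
    (f : S.Op) (c : Fin (S.ar f) → C) (i : Fin (S.ar f)) : c i ≤ op f c := by
  have hm : StrictMono fun x => op f (Function.update c i x) := by
    intro x y hxy
    have := h.mono f (Function.update c i y) i x (by simpa using hxy)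
    simpa using this
  have := hm.le_apply (x := c i)
  simpa using this

/-- Transfer along an order isomorphism. -/
theorem Good.transfer {S : Sig.{u}} {R : Set (Term S ℕ × Term S ℕ)} {C : Type v} [LinearOrder C]
    {op : ∀ f : S.Op, (Fin (S.ar f) → C) → C} (h : Good R op) {D : Type*} [LinearOrder D]
    (e : D ≃o C) : Good R (C := D) (fun f c => e.symm (op f fun i => e (c i))) := by
  have key : ∀ (ρ : ℕ → D) (t : Term S ℕ),
      t.eval (fun f c => e.symm (op f fun i => e (c i))) ρ = e.symm (t.eval op fun n => e (ρ n)) := by
    intro ρ t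
    induction t with
    | var x => simp [Term.eval]
    | app f ts ih => simp [Term.eval, ih]
  constructor
  · intro f c i x hx
    refine e.symm.lt_iff_lt.2 ?_
    have h1 : (fun j => e (Function.update c i x j)) = Function.update (fun j => e (c j)) i (e x) := by
      funext j
      by_cases hj : j = i
      · subst hj; simp
      · simp [hj]
    rw [h1]
    exact h.mono f _ i _ (e.lt_iff_lt.2 hx)
  · intro p hp ρ
    rw [key, key]
    exact e.symm.lt_iff_lt.2 (h.rule p hp _)

/-- Lexicographic product with an ordered monoid. -/
def lexOp {S : Sig.{u}} {C : Type v} (op : ∀ f : S.Op, (Fin (S.ar f) → C) → C) (M : Type*)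
    [AddCommMonoid M] : ∀ f : S.Op, (Fin (S.ar f) → C ×ₗ M) → C ×ₗ M :=
  fun f c => toLex (op f fun i => (ofLex (c i)).1, ∑ i, (ofLex (c i)).2)

theorem Good.lex {S : Sig.{u}} {R : Set (Term S ℕ × Term S ℕ)} {C : Type v} [LinearOrder C]
    {op : ∀ f : S.Op, (Fin (S.ar f) → C) → C} (h : Good R op) (M : Type*) [AddCommMonoid M]
    [LinearOrder M] [IsOrderedCancelAddMonoid M] : Good R (lexOp op M) := by
  have key : ∀ (ρ : ℕ → C ×ₗ M) (t : Term S ℕ),
      (ofLex (t.eval (lexOp op M) ρ)).1 = t.eval op fun n => (ofLex (ρ n)).1 := by
    intro ρ t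
    induction t with
    | var x => rfl
    | app f ts ih =>
      simp only [Term.eval, lexOp, ofLex_toLex]
      congr 1
      funext i
      exact ih i
  constructor
  · intro f c i x hx
    have h1 : (fun j => (ofLex (Function.update c i x j)).1)
        = Function.update (fun j => (ofLex (c j)).1) i (ofLex x).1 := by
      funext j
      by_cases hj : j = i
      · subst hj; simp
      · simp [hj]
    have h2 : (fun j => (ofLex (Function.update c i x j)).2)
        = Function.update (fun j => (ofLex (c j)).2) i (ofLex x).2 := by
      funext j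
      by_cases hj : j = i
      · subst hj; simp
      · simp [hj]
    rw [Prod.Lex.lt_iff] at hx ⊢
    simp only [lexOp, ofLex_toLex]
    rw [h1]
    rcases hx with hx | ⟨hx1, hx2⟩
    · exact Or.inl (h.mono f (fun j => (ofLex (c j)).1) i _ hx)
    · refine Or.inr ⟨?_, ?_⟩
      · rw [hx1, Function.update_eq_self]
      · have h3 : ∀ j, (ofLex (Function.update c i x j)).2
          = Function.update (fun j => (ofLex (c j)).2) i (ofLex x).2 j := fun j => congrFun h2 j
        simp only [h3]
        refine Finset.sum_lt_sum (fun j _ => ?_) ⟨i, Finset.mem_univ _, ?_⟩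
        · by_cases hj : j = i
          · subst hj; simpa using hx2.le
          · simp [hj]
        · simpa using hx2
  · intro p hp ρ
    rw [Prod.Lex.lt_iff]
    left
    rw [key, key]
    exact h.rule p hp _

/-- Subalgebras. -/
theorem Good.sub {S : Sig.{u}} {R : Set (Term S ℕ × Term S ℕ)} {C : Type v} [LinearOrder C]
    {op : ∀ f : S.Op, (Fin (S.ar f) → C) → C} (h : Good R op) (P : C → Prop)
    (hP : ∀ f (c : Fin (S.ar f) → C), (∀ i, P (c i)) → P (op f c)) :
    Good R (C := {x // P x}) (fun f c => ⟨op f fun i => (c i).1, hP f _ fun i => (c i).2⟩) := by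
  have key : ∀ (ρ : ℕ → {x // P x}) (t : Term S ℕ),
      (t.eval (fun f c => (⟨op f fun i => (c i).1, hP f _ fun i => (c i).2⟩ : {x // P x})) ρ).1
        = t.eval op fun n => (ρ n).1 := by
    intro ρ t
    induction t with
    | var x => rfl
    | app f ts ih =>
      simp only [Term.eval]
      congr 1
      funext i
      exact ih i
  constructor
  · intro f c i x hx
    have h1 : (fun j => (Function.update c i x j).1) = Function.update (fun j => (c j).1) i x.1 := by
      funext j
      by_cases hj : j = i
      · subst hj; simp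
      · simp [hj]
    show op f (fun j => (Function.update c i x j).1) < op f fun j => (c j).1
    rw [h1]
    exact h.mono f _ i _ hx
  · intro p hp ρ
    show (Term.eval _ ρ p.2).1 < (Term.eval _ ρ p.1).1
    rw [key, key]
    exact h.rule p hp _

/-- A totally terminating system has a well-ordered model on the ground terms. -/
theorem exists_good {S : Sig.{u}} {R : TRS S} (h : TotallyTerminating R) :
    ∃ (_ : LinearOrder (Ground S)) (_ : WellFoundedLT (Ground S))
      (op : ∀ f : S.Op, (Fin (S.ar f) → Ground S) → Ground S), Good R.rules op := by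
  classical
  obtain ⟨gt, hwo, hmono, hrule⟩ := h
  letI : LinearOrder (Ground S) := IsWellOrder.linearOrder (fun s t => gt t s)
  have hlt : ∀ s t : Ground S, s < t ↔ gt t s := fun s t => Iff.rfl
  refine ⟨inferInstance, ⟨hwo.wf⟩,
    fun f c => Term.app (S := S.withConst) (Sum.inl f) c, ?_, ?_⟩
  · intro f c i x hx
    exact hmono (Sum.inl f) c i x hx
  · intro p hp ρ
    have key : ∀ t : Term S ℕ,
        t.eval (fun f c => Term.app (S := S.withConst) (Sum.inl f) c) ρ = t.inst ρ := by
      intro t
      induction t with
      | var x => rfl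
      | app f ts ih =>
        simp only [Term.eval, Term.inst]
        congr 1
        funext i
        exact ih i
    rw [key, key]
    exact hrule p hp ρ

end Pool.Agent.R573.TT
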