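import Mathlib

/-!
# Total termination of term rewrite systems: definitions

Signatures, first-order terms, term rewrite systems, ground terms, total termination and disjoint
unions of term rewrite systems.
-/

set_option autoImplicit false

namespace Pool.Agent.R573.TT

universe u

/-- A signature: a type of function symbols, each with an arity. A symbol of arity `0` is a
constant. -/
structure Sig : Type (u + 1) where
  /-- the function symbols -/
  Op : Type u
  /-- the arity of a symbol -/
  ar : Op → ℕ

/-- First-order terms over the signature `S` with variables from `V`. -/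
inductive Term (S : Sig.{u}) (V : Type) : Type u
  /-- a variable -/
  | var (x : V) : Term S V
  /-- a symbol applied to as many terms as its arity says -/
  | app (f : S.Op) (ts : Fin (S.ar f) → Term S V) : Term S V

/-- The signature over which ground terms are formed: if `S` has a constant, there is no new
symbol; if `S` has no constant, there is exactly one new symbol, and it is a constant. -/
def Sig.withConst (S : Sig.{u}) : Sig.{u} where
  Op := S.Op ⊕ PLift (∀ f, S.ar f ≠ 0)
  ar := Sum.elim S.ar fun _ => 0

/-- The ground terms `T(F)` of the signature `S` (to which a fresh constant is added if `S` has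
none). -/
abbrev Ground (S : Sig.{u}) : Type u := Term S.withConst Empty

/-- The ground instance `t σ` of a term `t`. -/
def Term.inst {S : Sig.{u}} {V : Type} (σ : V → Ground S) : Term S V → Ground S
  | .var x => σ x
  | .app f ts => Term.app (S := S.withConst) (Sum.inl f) fun i => (ts i).inst σ

/-- The variable `x` occurs in the term. -/
def Term.Occurs {S : Sig.{u}} {V : Type} (x : V) : Term S V → Prop
  | .var y => x = y
  | .app _ ts => ∃ i, (ts i).Occurs x

/-- A term rewrite system over `S`: a set of rules `l → r`, where `l` is not a variable and every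
variable of `r` occurs in `l`. There is no bound on the number of rules. -/
structure TRS (S : Sig.{u}) where
  /-- the rules `(l, r)` -/
  rules : Set (Term S ℕ × Term S ℕ)
  lhs_ne_var : ∀ p ∈ rules, ∀ x, p.1 ≠ Term.var x
  occurs : ∀ p ∈ rules, ∀ x, p.2.Occurs x → p.1.Occurs x

/-- `R` is totally terminating: there is a well-ordering of the ground terms (`gt s t` means
`s > t`) which is monotonic (replacing an argument by a smaller term makes the term smaller) and
satisfies `l σ > r σ` for every rule `l → r` and every ground substitution `σ`. -/
def TotallyTerminating {S : Sig.{u}} (R : TRS S) : Prop :=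
  ∃ gt : Ground S → Ground S → Prop,
    IsWellOrder (Ground S) (fun s t => gt t s) ∧
    (∀ (f : S.withConst.Op) (ts : Fin (S.withConst.ar f) → Ground S)
      (i : Fin (S.withConst.ar f)) (s : Ground S), gt (ts i) s →
        gt (Term.app f ts) (Term.app f (Function.update ts i s))) ∧
    ∀ p ∈ R.rules, ∀ σ : ℕ → Ground S, gt (p.1.inst σ) (p.2.inst σ)

/-- The disjoint union of two signatures. -/
def Sig.sum (S T : Sig.{u}) : Sig.{u} where
  Op := S.Op ⊕ T.Op
  ar := Sum.elim S.ar T.ar

/-- A term over `S` as a term over the disjoint union of `S` and `T`. -/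
def Term.inl {S : Sig.{u}} (T : Sig.{u}) {V : Type} : Term S V → Term (S.sum T) V
  | .var x => .var x
  | .app f ts => Term.app (S := S.sum T) (Sum.inl f) fun i => (ts i).inl T

/-- A term over `T` as a term over the disjoint union of `S` and `T`. -/
def Term.inr (S : Sig.{u}) {T : Sig.{u}} {V : Type} : Term T V → Term (S.sum T) V
  | .var x => .var x
  | .app f ts => Term.app (S := S.sum T) (Sum.inr f) fun i => (ts i).inr S

theorem Term.occurs_inl {S : Sig.{u}} (T : Sig.{u}) {V : Type} (x : V) (t : Term S V) :
    (t.inl T).Occurs x ↔ t.Occurs x := by
  induction t with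
  | var y => exact Iff.rfl
  | app f ts ih => exact exists_congr ih

theorem Term.occurs_inr (S : Sig.{u}) {T : Sig.{u}} {V : Type} (x : V) (t : Term T V) :
    (t.inr S).Occurs x ↔ t.Occurs x := by
  induction t with
  | var y => exact Iff.rfl
  | app f ts ih => exact exists_congr ih

/-- The union of two term rewrite systems over disjoint signatures. -/
def TRS.union {S T : Sig.{u}} (R : TRS S) (R' : TRS T) : TRS (S.sum T) where
  rules := {q | (∃ p ∈ R.rules, q = (p.1.inl T, p.2.inl T)) ∨
    ∃ p ∈ R'.rules, q = (p.1.inr S, p.2.inr S)}
  lhs_ne_var := by
    rintro q (⟨⟨l, r⟩, hp, rfl⟩ | ⟨⟨l, r⟩, hp, rfl⟩) x h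
    · cases l with
      | var y => exact R.lhs_ne_var _ hp y rfl
      | app f ts => cases h
    · cases l with
      | var y => exact R'.lhs_ne_var _ hp y rfl
      | app f ts => cases h
  occurs := by
    rintro q (⟨p, hp, rfl⟩ | ⟨p, hp, rfl⟩) x h
    · exact (Term.occurs_inl T x _).2 (R.occurs p hp x ((Term.occurs_inl T x _).1 h))
    · exact (Term.occurs_inr S x _).2 (R'.occurs p hp x ((Term.occurs_inr S x _).1 h))

end Pool.Agent.R573.TT
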