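import Pool.Agent.R573.TT.Model

/-!
# Total termination is modular for countable signatures
-/

set_option autoImplicit false

namespace Pool.Agent.R573.TT

universe u v

/-- Polish notation of a ground term. -/
def Term.code {S : Sig.{u}} : Term S Empty → List S.Op
  | .app f ts => f :: (List.ofFn fun i => (ts i).code).flatten

theorem flatten_inj {S : Sig.{u}} (n : ℕ) (ts ts' : Fin n → Term S Empty)
    (h : ∀ i, ∀ (t : Term S Empty) (u v : List S.Op), (ts i).code ++ u = t.code ++ v →
      ts i = t ∧ u = v) (u v : List S.Op)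
    (he : (List.ofFn fun i => (ts i).code).flatten ++ u
      = (List.ofFn fun i => (ts' i).code).flatten ++ v) : ts = ts' ∧ u = v := by
  induction n generalizing u v with
  | zero => exact ⟨funext fun i => i.elim0, by simpa using he⟩
  | succ n ih =>
    simp only [List.ofFn_succ, List.flatten_cons, List.append_assoc] at he
    obtain ⟨h1, h2⟩ := h 0 _ _ _ he
    obtain ⟨h3, h4⟩ := ih (fun i => ts i.succ) (fun i => ts' i.succ) (fun i => h i.succ) _ _ h2
    refine ⟨funext fun i => ?_, h4⟩
    refine Fin.cases h1 (fun j => ?_) i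
    exact congrFun h3 j

theorem code_append_inj {S : Sig.{u}} (s : Term S Empty) : ∀ (t : Term S Empty) (u v : List S.Op),
    s.code ++ u = t.code ++ v → s = t ∧ u = v := by
  induction s with
  | var x => exact x.elim
  | app f ts ih =>
    intro t u v h
    cases t with
    | var x => exact x.elim
    | app g ts' =>
      simp only [Term.code, List.cons_append, List.cons.injEq] at h
      obtain ⟨rfl, h⟩ := h
      obtain ⟨rfl, rfl⟩ := flatten_inj _ ts ts' ih u v h
      exact ⟨rfl, rfl⟩

theorem code_injective {S : Sig.{u}} :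
    Function.Injective (Term.code : Term S Empty → List S.Op) := by
  intro s t h
  exact (code_append_inj s t [] [] (by rw [h])).1

theorem lex_append {α : Type u} {r : α → α → Prop} {s t : List α} (h : List.Lex r s t)
    (hl : s.length = t.length) (w : List α) : List.Lex r (s ++ w) (t ++ w) := by
  induction h with
  | nil => simp at hl
  | cons h ih =>
    simp only [List.length_cons, add_left_inj] at hl
    exact List.Lex.cons (ih hl)
  | rel h => exact List.Lex.rel h

theorem shortlex_append {α : Type u} {r : α → α → Prop} {s t : List α}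
    (h : List.Shortlex r s t) (w : List α) : List.Shortlex r (s ++ w) (t ++ w) := by
  rcases List.shortlex_def.1 h with h1 | ⟨h1, h2⟩
  · exact List.Shortlex.of_length_lt (by simpa using h1)
  · exact List.Shortlex.of_lex (by simpa using h1) (lex_append h2 h1 w)

theorem shortlex_flatten {α : Type u} {r : α → α → Prop} (n : ℕ) (g g' : Fin n → List α)
    (i : Fin n) (h : ∀ j, j ≠ i → g' j = g j) (hi : List.Shortlex r (g' i) (g i)) :
    List.Shortlex r (List.ofFn g').flatten (List.ofFn g).flatten := by
  induction n with
  | zero => exact i.elim0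
  | succ n ih =>
    simp only [List.ofFn_succ, List.flatten_cons]
    rcases Fin.eq_zero_or_eq_succ i with rfl | ⟨k, rfl⟩
    · have h1 : (fun j : Fin n => g' j.succ) = fun j => g j.succ :=
        funext fun j => h _ (Fin.succ_ne_zero j)
      rw [h1]
      exact shortlex_append hi _
    · rw [h 0 (Fin.succ_ne_zero k).symm]
      refine List.Shortlex.append_left ?_ _
      exact ih (fun j => g j.succ) (fun j => g' j.succ) k
        (fun j hj => h _ fun h' => hj (Fin.succ_injective _ h')) hi

/-- The algebra of the disjoint union. -/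
def joinOp {S T : Sig.{u}} {C : Type v} (c₀ : C)
    (o : ∀ f : S.Op, (Fin (S.ar f) → C) → C) (o' : ∀ f : T.Op, (Fin (T.ar f) → C) → C) :
    ∀ f : (S.sum T).withConst.Op, (Fin ((S.sum T).withConst.ar f) → C) → C
  | Sum.inl (Sum.inl f), c => o f c
  | Sum.inl (Sum.inr g), c => o' g c
  | Sum.inr _, _ => c₀

theorem joinOp_mono {S T : Sig.{u}} {C : Type v} [LinearOrder C] (c₀ : C)
    {R : Set (Term S ℕ × Term S ℕ)} {R' : Set (Term T ℕ × Term T ℕ)}
    {o : ∀ f : S.Op, (Fin (S.ar f) → C) → C} {o' : ∀ f : T.Op, (Fin (T.ar f) → C) → C}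
    (h : Good R o) (h' : Good R' o') (f : (S.sum T).withConst.Op)
    (c : Fin ((S.sum T).withConst.ar f) → C) (i : Fin ((S.sum T).withConst.ar f)) (x : C)
    (hx : x < c i) : joinOp c₀ o o' f (Function.update c i x) < joinOp c₀ o o' f c := by
  rcases f with (f | g) | k
  · exact h.mono f c i x hx
  · exact h'.mono g c i x hx
  · exact Fin.elim0 i

theorem eval_inl {S T : Sig.{u}} {C : Type v} (c₀ : C)
    (o : ∀ f : S.Op, (Fin (S.ar f) → C) → C) (o' : ∀ f : T.Op, (Fin (T.ar f) → C) → C)
    (ρ : Empty → C) (σ : ℕ → Ground (S.sum T)) (t : Term S ℕ) :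
    ((t.inl T).inst σ).eval (joinOp c₀ o o') ρ
      = t.eval o fun n => (σ n).eval (joinOp c₀ o o') ρ := by
  induction t with
  | var x => rfl
  | app f ts ih =>
    show o f (fun i => (((ts i).inl T).inst σ).eval (joinOp c₀ o o') ρ) = o f _
    congr 1
    funext i
    exact ih i

theorem eval_inr {S T : Sig.{u}} {C : Type v} (c₀ : C)
    (o : ∀ f : S.Op, (Fin (S.ar f) → C) → C) (o' : ∀ f : T.Op, (Fin (T.ar f) → C) → C)
    (ρ : Empty → C) (σ : ℕ → Ground (S.sum T)) (t : Term T ℕ) :
    ((t.inr S).inst σ).eval (joinOp c₀ o o') ρ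
      = t.eval o' fun n => (σ n).eval (joinOp c₀ o o') ρ := by
  induction t with
  | var x => rfl
  | app f ts ih =>
    show o' f (fun i => (((ts i).inr S).inst σ).eval (joinOp c₀ o o') ρ) = o' f _
    congr 1
    funext i
    exact ih i

/-- A common well-ordered model gives total termination of the disjoint union. -/
theorem union_of_common {S T : Sig.{u}} (R : TRS S) (R' : TRS T) {C : Type v} [LinearOrder C]
    [WellFoundedLT C] [Nonempty C] {o : ∀ f : S.Op, (Fin (S.ar f) → C) → C}
    {o' : ∀ f : T.Op, (Fin (T.ar f) → C) → C} (h : Good R.rules o) (h' : Good R'.rules o') :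
    TotallyTerminating (R.union R') := by
  classical
  let c₀ : C := Classical.arbitrary C
  let ev : Ground (S.sum T) → C := fun t => t.eval (joinOp c₀ o o') Empty.elim
  let r₀ : (S.sum T).withConst.Op → (S.sum T).withConst.Op → Prop := WellOrderingRel
  have hsl : IsWellOrder (List (S.sum T).withConst.Op) (List.Shortlex r₀) :=
    { wf := List.Shortlex.wf (IsWellFounded.wf) }
  let F : Ground (S.sum T) ↪ C × List (S.sum T).withConst.Op :=
    ⟨fun t => (ev t, t.code), fun s t h => code_injective (congrArg Prod.snd h)⟩
  refine ⟨fun s t => Prod.Lex (· < ·) (List.Shortlex r₀) (F t) (F s), ?_, ?_, ?_⟩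
  · exact (RelEmbedding.preimage F (Prod.Lex (· < ·) (List.Shortlex r₀))).isWellOrder
  · intro f ts i s hs
    have hev : ev (Term.app f (Function.update ts i s))
        = joinOp c₀ o o' f (Function.update (fun j => ev (ts j)) i (ev s)) := by
      show joinOp c₀ o o' f (fun j => ev (Function.update ts i s j)) = _
      congr 1
      funext j
      by_cases hj : j = i
      · subst hj; simp
      · simp [hj]
    have hev' : ev (Term.app f ts) = joinOp c₀ o o' f fun j => ev (ts j) := rfl
    rw [Prod.lex_def] at hs ⊢
    show ev (Term.app f (Function.update ts i s)) < ev (Term.app f ts) ∨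
      ev (Term.app f (Function.update ts i s)) = ev (Term.app f ts) ∧
        List.Shortlex r₀ (Term.app f (Function.update ts i s)).code (Term.app f ts).code
    rw [hev, hev']
    rcases hs with hs | ⟨hs1, hs2⟩
    · exact Or.inl (joinOp_mono c₀ h h' f _ i _ hs)
    · right
      have hs1 : ev s = ev (ts i) := hs1
      have hs2 : List.Shortlex r₀ s.code (ts i).code := hs2
      refine ⟨by rw [hs1, Function.update_eq_self], ?_⟩
      simp only [Term.code]
      rw [List.shortlex_cons_iff]
      refine shortlex_flatten _ _ _ i (fun j hj => ?_) ?_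
      · simp [hj]
      · simpa using hs2
  · intro p hp σ
    rw [Prod.lex_def]
    left
    show ev (p.2.inst σ) < ev (p.1.inst σ)
    rcases hp with ⟨q, hq, rfl⟩ | ⟨q, hq, rfl⟩
    · show ((q.2.inl T).inst σ).eval (joinOp c₀ o o') Empty.elim
        < ((q.1.inl T).inst σ).eval (joinOp c₀ o o') Empty.elim
      rw [eval_inl, eval_inl]
      exact h.rule q hq _
    · show ((q.2.inr S).inst σ).eval (joinOp c₀ o o') Empty.elim
        < ((q.1.inr S).inst σ).eval (joinOp c₀ o o') Empty.elim
      rw [eval_inr, eval_inr]
      exact h'.rule q hq _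

/-- Every signature has a ground term. -/
instance (S : Sig.{u}) : Nonempty (Ground S) := by
  by_cases h : ∀ f, S.ar f ≠ 0
  · exact ⟨Term.app (S := S.withConst) (Sum.inr ⟨h⟩) Fin.elim0⟩
  · push Not at h
    obtain ⟨f, hf⟩ := h
    exact ⟨Term.app (S := S.withConst) (Sum.inl f) fun i => (Fin.cast hf i).elim0⟩

instance {S : Sig.{u}} [Countable S.Op] : Countable (Ground S) := by
  have : Countable S.withConst.Op :=
    inferInstanceAs (Countable (S.Op ⊕ PLift (∀ f, S.ar f ≠ 0)))
  exact (code_injective (S := S.withConst)).countable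

/-- Total termination is modular for countable signatures. -/
theorem modular {S T : Sig.{u}} [Countable S.Op] [Countable T.Op] (R : TRS S) (R' : TRS T)
    (h : TotallyTerminating R) (h' : TotallyTerminating R') :
    TotallyTerminating (R.union R') := by
  obtain ⟨_, _, op, hop⟩ := exists_good h
  obtain ⟨_, _, op', hop'⟩ := exists_good h'
  obtain ⟨C, _, _, _, o, o', ho, ho'⟩ := exists_common hop hop'
  exact union_of_common R R' ho ho'

end Pool.Agent.R573.TT
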