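import Pool.Agent.R573.TT.Alg

/-!
# Countable well-ordered models extend to models of order type `ω_ ω`
-/

set_option autoImplicit false

namespace Pool.Agent.R573.TT

open Cardinal Ordinal

universe u

/-- A monotone unbounded level function on a countable linear order without maximum. -/
theorem exists_level (A : Type u) [LinearOrder A] [Countable A] [Nonempty A] [NoMaxOrder A] :
    ∃ ν : A → ℕ, Monotone ν ∧ ∀ n, ∃ a, n ≤ ν a := by
  obtain ⟨e, he⟩ := exists_surjective_nat A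
  have hex : ∀ a : A, ∃ k, a < e k := by
    intro a
    obtain ⟨b, hb⟩ := exists_gt a
    obtain ⟨k, rfl⟩ := he b
    exact ⟨k, hb⟩
  classical
  refine ⟨fun a => Nat.find (hex a), fun a b hab => ?_, fun n => ?_⟩
  · exact Nat.find_min' _ (hab.trans_lt (Nat.find_spec (hex b)))
  · obtain ⟨a, ha⟩ : ∃ a, ∀ k < n, e k ≤ a := by
      induction n with
      | zero => exact ⟨Classical.arbitrary A, fun k hk => absurd hk (Nat.not_lt_zero _)⟩
      | succ n ih =>
        obtain ⟨a, ha⟩ := ih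
        refine ⟨max a (e n), fun k hk => ?_⟩
        rcases Nat.lt_succ_iff_lt_or_eq.1 hk with h | rfl
        · exact (ha k h).trans (le_max_left _ _)
        · exact le_max_right _ _
    refine ⟨a, ?_⟩
    by_contra hlt
    push Not at hlt
    exact absurd (Nat.find_spec (hex a)) (not_lt.2 (ha _ hlt))

/-- The index set: the ordinals below `ω_ ω`. -/
abbrev Idx : Type (u + 1) := Set.Iio (ω_ (ω : Ordinal.{u}))

/-- The ordinals below `ω ^ (ω_ ω)` with the natural sum, as finitely supported functions. -/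
abbrev DD : Type (u + 1) := Colex (Idx.{u} →₀ ℕ)

/-- The elements supported below `ω_ n`. -/
def low (n : ℕ) : AddSubmonoid DD.{u} where
  carrier := {x | ∀ i, (ofColex x) i ≠ 0 → i.1 < ω_ (n : Ordinal.{u})}
  zero_mem' := by
    intro i hi
    exact absurd rfl hi
  add_mem' := by
    intro x y hx hy i hi
    by_cases h : (ofColex x) i = 0
    · refine hy i fun h' => hi ?_
      show (ofColex x) i + (ofColex y) i = 0
      rw [h, h']
    · exact hx i h

theorem low_mono : Monotone low.{u} := by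
  intro m n hmn x hx i hi
  refine (hx i hi).trans_le ?_
  rw [omega_le_omega]
  exact_mod_cast hmn

theorem mk_seg (n : ℕ) :
    #{i : Idx.{u} // i.1 < ω_ (n : Ordinal.{u})} = ℵ_ (n : Ordinal.{u + 1}) := by
  have h1 : ω_ (n : Ordinal.{u}) < ω_ (ω : Ordinal.{u}) := by
    rw [omega_lt_omega]
    exact natCast_lt_omega0 n
  have h2 : #{i : Idx.{u} // i.1 < ω_ (n : Ordinal.{u})} = #(Set.Iio (ω_ (n : Ordinal.{u}))) := by
    refine Cardinal.mk_congr ⟨fun i => ⟨i.1.1, i.2⟩, fun i => ⟨⟨i.1, lt_trans i.2 h1⟩, i.2⟩,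
      fun _ => rfl, fun _ => rfl⟩
  rw [h2, Cardinal.mk_Iio_ordinal, Ordinal.card_omega, Cardinal.lift_aleph]
  simp

theorem mk_low_le (n : ℕ) : #(low.{u} n) ≤ ℵ_ (n : Ordinal.{u + 1}) := by
  have h1 : #(low.{u} n) ≤ #({i : Idx.{u} // i.1 < ω_ (n : Ordinal.{u})} →₀ ℕ) := by
    refine Cardinal.mk_le_of_injective
      (f := fun x : low.{u} n => Finsupp.subtypeDomain (fun i : Idx.{u} => i.1 < ω_ (n : Ordinal.{u}))
        (ofColex x.1)) ?_
    intro x y hxy
    apply Subtype.ext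
    apply ofColex.injective
    ext i
    by_cases hi : i.1 < ω_ (n : Ordinal.{u})
    · exact DFunLike.congr_fun hxy (⟨i, hi⟩ : {i : Idx.{u} // i.1 < ω_ (n : Ordinal.{u})})
    · have hx : (ofColex x.1) i = 0 := by
        by_contra h
        exact hi (x.2 i h)
      have hy : (ofColex y.1) i = 0 := by
        by_contra h
        exact hi (y.2 i h)
      rw [hx, hy]
  refine h1.trans ?_
  have hne : Nonempty {i : Idx.{u} // i.1 < ω_ (n : Ordinal.{u})} := by
    rw [← Cardinal.mk_ne_zero_iff, mk_seg]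
    exact (aleph_pos _).ne'
  rw [Cardinal.mk_finsupp_nat, mk_seg]
  exact max_le le_rfl (aleph0_le_aleph _)

theorem le_mk_low (n : ℕ) : ℵ_ (n : Ordinal.{u + 1}) ≤ #(low.{u} n) := by
  rw [← mk_seg.{u} n]
  refine Cardinal.mk_le_of_injective
    (f := fun i : {i : Idx.{u} // i.1 < ω_ (n : Ordinal.{u})} =>
      (⟨toColex (Finsupp.single i.1 1), ?_⟩ : low.{u} n)) ?_
  · intro j hj
    by_cases h : i.1 = j
    · rw [← h]; exact i.2
    · exact absurd (Finsupp.single_eq_of_ne' h) hj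
  · intro i j hij
    have h1 := congrArg (fun x : low.{u} n => (ofColex x.1)) hij
    simp only [ofColex_toColex] at h1
    have h2 := (Finsupp.single_left_injective one_ne_zero) h1
    exact Subtype.ext h2

/-- The well-order in which the fibre over `a` consists of the elements of level `ν a`. -/
abbrev Fib {A : Type u} [LinearOrder A] (ν : A → ℕ) : Type (u + 1) :=
  {p : A ×ₗ DD.{u} // (ofLex p).2 ∈ low.{u} (ν (ofLex p).1)}

theorem aleph_lt (n : ℕ) : ℵ_ (n : Ordinal.{u + 1}) < ℵ_ (ω : Ordinal.{u + 1}) := by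
  rw [aleph_lt_aleph]
  exact natCast_lt_omega0 n

theorem aleph_omega_le {c : Cardinal.{u + 1}} (h : ∀ n : ℕ, ℵ_ (n : Ordinal.{u + 1}) ≤ c) :
    ℵ_ (ω : Ordinal.{u + 1}) ≤ c := by
  rw [aleph_limit isSuccLimit_omega0]
  refine ciSup_le' fun a => ?_
  obtain ⟨n, hn⟩ := lt_omega0.1 a.2
  rw [hn]
  exact h n

theorem type_fib {A : Type u} [LinearOrder A] [WellFoundedLT A] [Countable A] (ν : A → ℕ)
    (hν : Monotone ν) (hu : ∀ n, ∃ a, n ≤ ν a) :
    Ordinal.type (α := Fib ν) (· < ·) = (ℵ_ (ω : Ordinal.{u + 1})).ord := by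
  have hlow : ∀ n : ℕ, ℵ_ (n : Ordinal.{u + 1}) ≤ #(Fib ν) := by
    intro n
    obtain ⟨a, ha⟩ := hu n
    refine (le_mk_low.{u} n).trans (Cardinal.mk_le_of_injective
      (f := fun x : low.{u} n => (⟨toLex (a, x.1), low_mono ha x.2⟩ : Fib ν)) ?_)
    intro x y hxy
    have h1 := congrArg (fun p : Fib ν => (ofLex p.1).2) hxy
    exact Subtype.ext h1
  have hseg : ∀ p : Fib ν, #{q : Fib ν // q < p} < ℵ_ (ω : Ordinal.{u + 1}) := by
    intro p
    have h1 : #{q : Fib ν // q < p} ≤ #(ULift.{u + 1} A × low.{u} (ν (ofLex p.1).1)) := by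
      refine Cardinal.mk_le_of_injective
        (f := fun q : {q : Fib ν // q < p} =>
          ((⟨(ofLex q.1.1).1⟩, ⟨(ofLex q.1.1).2, ?_⟩) :
            ULift.{u + 1} A × low.{u} (ν (ofLex p.1).1))) ?_
      · refine low_mono (hν ?_) q.1.2
        have h2 : q.1.1 < p.1 := q.2
        exact Prod.Lex.monotone_fst _ _ h2.le
      · intro q q' hqq
        have h2 := congrArg (fun z => (z.1.down, z.2.1)) hqq
        apply Subtype.ext
        apply Subtype.ext
        exact ofLex.injective h2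
    refine h1.trans_lt ?_
    rw [Cardinal.mk_prod, Cardinal.lift_id, Cardinal.lift_id]
    refine Cardinal.mul_lt_of_lt (aleph0_le_aleph _) ?_ ?_
    · refine (Cardinal.mk_le_aleph0).trans_lt ?_
      rw [aleph0_lt_aleph]
      exact omega0_pos
    · exact (mk_low_le.{u} _).trans_lt (aleph_lt _)
  apply le_antisymm
  · refine le_of_forall_lt fun o ho => ?_
    rw [Cardinal.lt_ord]
    obtain ⟨p, rfl⟩ := Ordinal.typein_surj _ ho
    have h1 := hseg p
    rw [← Ordinal.card_typein] at h1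
    exact h1
  · rw [Cardinal.ord_le, Ordinal.card_type]
    exact aleph_omega_le hlow

/-- Two such well-orders are isomorphic. -/
theorem exists_iso {A B : Type u} [LinearOrder A] [WellFoundedLT A] [Countable A]
    [LinearOrder B] [WellFoundedLT B] [Countable B] (ν : A → ℕ) (hν : Monotone ν)
    (hu : ∀ n, ∃ a, n ≤ ν a) (μ : B → ℕ) (hμ : Monotone μ) (hv : ∀ n, ∃ a, n ≤ μ a) :
    Nonempty (Fib ν ≃o Fib μ) := by
  have h := (type_fib ν hν hu).trans (type_fib μ hμ hv).symm
  rw [Ordinal.type_eq] at h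
  obtain ⟨e⟩ := h
  exact ⟨OrderIso.ofRelIsoLT e⟩

/-- A countable well-ordered model extends to a model on some `Fib ν`. -/
theorem Good.fib {S : Sig.{u}} {R : Set (Term S ℕ × Term S ℕ)} {A : Type u} [LinearOrder A]
    [WellFoundedLT A] {op : ∀ f : S.Op, (Fin (S.ar f) → A) → A}
    (h : Good R op) (ν : A → ℕ) (hν : Monotone ν) :
    ∃ op' : ∀ f : S.Op, (Fin (S.ar f) → Fib ν) → Fib ν, Good R op' := by
  refine ⟨_, Good.sub (h.lex DD.{u}) (fun p => (ofLex p).2 ∈ low.{u} (ν (ofLex p).1)) ?_⟩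
  intro f c hc
  simp only [lexOp, ofLex_toLex]
  refine AddSubmonoid.sum_mem _ fun i _ => ?_
  exact low_mono (hν (h.le_op f (fun i => (ofLex (c i)).1) i)) (hc i)

/-- Common models of two systems over countable signatures. -/
theorem exists_common {S T : Sig.{u}} {R : Set (Term S ℕ × Term S ℕ)}
    {R' : Set (Term T ℕ × Term T ℕ)}
    {A B : Type u} [LinearOrder A] [WellFoundedLT A] [Countable A] [Nonempty A]
    [LinearOrder B] [WellFoundedLT B] [Countable B] [Nonempty B]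
    {op : ∀ f : S.Op, (Fin (S.ar f) → A) → A} (h : Good R op)
    {op' : ∀ f : T.Op, (Fin (T.ar f) → B) → B} (h' : Good R' op') :
    ∃ (C : Type (u + 1)) (_ : LinearOrder C) (_ : WellFoundedLT C) (_ : Nonempty C)
      (o : ∀ f : S.Op, (Fin (S.ar f) → C) → C) (o' : ∀ f : T.Op, (Fin (T.ar f) → C) → C),
      Good R o ∧ Good R' o' := by
  have : NoMaxOrder (A ×ₗ ℕ) := ⟨fun p => ⟨toLex ((ofLex p).1, (ofLex p).2 + 1), by
    rw [Prod.Lex.lt_iff]; right; simp⟩⟩
  have : NoMaxOrder (B ×ₗ ℕ) := ⟨fun p => ⟨toLex ((ofLex p).1, (ofLex p).2 + 1), by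
    rw [Prod.Lex.lt_iff]; right; simp⟩⟩
  have : Countable (A ×ₗ ℕ) := inferInstanceAs (Countable (A × ℕ))
  have : Countable (B ×ₗ ℕ) := inferInstanceAs (Countable (B × ℕ))
  have : Nonempty (A ×ₗ ℕ) := inferInstanceAs (Nonempty (A × ℕ))
  have : Nonempty (B ×ₗ ℕ) := inferInstanceAs (Nonempty (B × ℕ))
  obtain ⟨ν, hν, hu⟩ := exists_level (A ×ₗ ℕ)
  obtain ⟨μ, hμ, hv⟩ := exists_level (B ×ₗ ℕ)
  obtain ⟨o, ho⟩ := (h.lex ℕ).fib ν hν
  obtain ⟨o', ho'⟩ := (h'.lex ℕ).fib μ hμ
  obtain ⟨e⟩ := exists_iso ν hν hu μ hμ hv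
  have hne : Nonempty (Fib ν) := by
    obtain ⟨a, _⟩ := hu 0
    exact ⟨⟨toLex (a, 0), (low.{u} _).zero_mem⟩⟩
  exact ⟨Fib ν, inferInstance, inferInstance, hne, o, _, ho, ho'.transfer e⟩

end Pool.Agent.R573.TT
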