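import Pool.Agent.R573.TT.Main

/-!
# Total termination is not modular for uncountable signatures
-/

set_option autoImplicit false

namespace Pool.Agent.R573.TT

open Cardinal Ordinal

universe u v

/-- The algebra of a signature with possibly one more constant. -/
def singleOp {S : Sig.{u}} {C : Type v} (c₀ : C) (o : ∀ f : S.Op, (Fin (S.ar f) → C) → C) :
    ∀ f : S.withConst.Op, (Fin (S.withConst.ar f) → C) → C
  | Sum.inl f, c => o f c
  | Sum.inr _, _ => c₀

theorem singleOp_mono {S : Sig.{u}} {C : Type v} [LinearOrder C] (c₀ : C)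
    {R : Set (Term S ℕ × Term S ℕ)} {o : ∀ f : S.Op, (Fin (S.ar f) → C) → C}
    (h : Good R o) (f : S.withConst.Op) (c : Fin (S.withConst.ar f) → C)
    (i : Fin (S.withConst.ar f)) (x : C) (hx : x < c i) :
    singleOp c₀ o f (Function.update c i x) < singleOp c₀ o f c := by
  rcases f with f | k
  · exact h.mono f c i x hx
  · exact Fin.elim0 i

theorem eval_single {S : Sig.{u}} {C : Type v} (c₀ : C)
    (o : ∀ f : S.Op, (Fin (S.ar f) → C) → C) (ρ : Empty → C) (σ : ℕ → Ground S)
    (t : Term S ℕ) :
    (t.inst σ).eval (singleOp c₀ o) ρ = t.eval o fun n => (σ n).eval (singleOp c₀ o) ρ := by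
  induction t with
  | var x => rfl
  | app f ts ih =>
    show o f (fun i => ((ts i).inst σ).eval (singleOp c₀ o) ρ) = o f _
    congr 1
    funext i
    exact ih i

/-- A well-ordered model gives total termination. -/
theorem of_good {S : Sig.{u}} (R : TRS S) {C : Type v} [LinearOrder C]
    [WellFoundedLT C] [Nonempty C] {o : ∀ f : S.Op, (Fin (S.ar f) → C) → C}
    (h : Good R.rules o) : TotallyTerminating R := by
  classical
  let c₀ : C := Classical.arbitrary C
  let ev : Ground S → C := fun t => t.eval (singleOp c₀ o) Empty.elim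
  let r₀ : S.withConst.Op → S.withConst.Op → Prop := WellOrderingRel
  have hsl : IsWellOrder (List S.withConst.Op) (List.Shortlex r₀) :=
    { wf := List.Shortlex.wf (IsWellFounded.wf) }
  let F : Ground S ↪ C × List S.withConst.Op :=
    ⟨fun t => (ev t, t.code), fun s t h => code_injective (congrArg Prod.snd h)⟩
  refine ⟨fun s t => Prod.Lex (· < ·) (List.Shortlex r₀) (F t) (F s), ?_, ?_, ?_⟩
  · exact (RelEmbedding.preimage F (Prod.Lex (· < ·) (List.Shortlex r₀))).isWellOrder
  · intro f ts i s hs
    have hev : ev (Term.app f (Function.update ts i s))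
        = singleOp c₀ o f (Function.update (fun j => ev (ts j)) i (ev s)) := by
      show singleOp c₀ o f (fun j => ev (Function.update ts i s j)) = _
      congr 1
      funext j
      by_cases hj : j = i
      · subst hj; simp
      · simp [hj]
    have hev' : ev (Term.app f ts) = singleOp c₀ o f fun j => ev (ts j) := rfl
    rw [Prod.lex_def] at hs ⊢
    show ev (Term.app f (Function.update ts i s)) < ev (Term.app f ts) ∨
      ev (Term.app f (Function.update ts i s)) = ev (Term.app f ts) ∧
        List.Shortlex r₀ (Term.app f (Function.update ts i s)).code (Term.app f ts).code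
    rw [hev, hev']
    rcases hs with hs | ⟨hs1, hs2⟩
    · exact Or.inl (singleOp_mono c₀ h f _ i _ hs)
    · right
      have hs1 : ev s = ev (ts i) := hs1
      have hs2 : List.Shortlex r₀ s.code (ts i).code := hs2
      refine ⟨by rw [hs1, Function.update_eq_self], ?_⟩
      simp only [Term.code]
      rw [List.shortlex_cons_iff]
      refine shortlex_flatten _ _ _ i (fun j hj => ?_) ?_
      · simp [hj]
      · simpa using hs2
  · intro p hp σ
    rw [Prod.lex_def]
    left
    show ev (p.2.inst σ) < ev (p.1.inst σ)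
    show (p.2.inst σ).eval (singleOp c₀ o) Empty.elim
      < (p.1.inst σ).eval (singleOp c₀ o) Empty.elim
    rw [eval_single, eval_single]
    exact h.rule p hp _

/-! ### The index set -/

/-- A well-order of type `ω₁`. -/
abbrev W : Type := (ℵ_ 1 : Cardinal.{0}).ord.ToType

theorem countable_Iio_W (x : W) : Countable (Set.Iio x) := by
  rw [← Cardinal.mk_le_aleph0_iff, ← Order.lt_succ_iff, Cardinal.succ_aleph0]
  exact mk_Iio_toType_ord_lt x

theorem countable_Iic_W (x : W) : (Set.Iic x).Countable := by
  rw [← Set.Iio_insert]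
  exact ((Set.countable_coe_iff.1 (countable_Iio_W x))).insert x

theorem mk_W : #W = ℵ_ 1 := Cardinal.mk_ord_toType _

theorem exists_emb (X : Type) [LinearOrder X] [WellFoundedLT X]
    (h : ∀ x : X, (Set.Iio x).Countable) : ∃ f : X → W, StrictMono f := by
  have hle : typeLT X ≤ typeLT W := by
    rw [Ordinal.type_toType]
    refine le_of_forall_lt fun o ho => ?_
    rw [Cardinal.lt_ord]
    obtain ⟨p, rfl⟩ := Ordinal.typein_surj _ ho
    rw [Ordinal.card_typein]
    have h1 : #{y : X // y < p} ≤ ℵ₀ := Cardinal.mk_le_aleph0_iff.2 (Set.countable_coe_iff.2 (h p))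
    refine h1.trans_lt ?_
    rw [← Cardinal.succ_aleph0]
    exact Order.lt_succ _
  obtain ⟨f⟩ := Ordinal.type_le_iff.1 hle
  exact ⟨f, fun x y hxy => f.map_rel_iff.2 hxy⟩

theorem exists_isoW (X : Type) [LinearOrder X] [WellFoundedLT X]
    (h : ∀ x : X, (Set.Iio x).Countable) (hX : ℵ_ 1 ≤ #X) : Nonempty (X ≃o W) := by
  have hle : typeLT X = typeLT W := by
    rw [Ordinal.type_toType]
    apply le_antisymm
    · refine le_of_forall_lt fun o ho => ?_
      rw [Cardinal.lt_ord]
      obtain ⟨p, rfl⟩ := Ordinal.typein_surj _ ho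
      rw [Ordinal.card_typein]
      have h1 : #{y : X // y < p} ≤ ℵ₀ :=
        Cardinal.mk_le_aleph0_iff.2 (Set.countable_coe_iff.2 (h p))
      refine h1.trans_lt ?_
      rw [← Cardinal.succ_aleph0]
      exact Order.lt_succ _
    · rw [Cardinal.ord_le, Ordinal.card_type]
      exact hX
  rw [Ordinal.type_eq] at hle
  obtain ⟨e⟩ := hle
  exact ⟨OrderIso.ofRelIsoLT e⟩

theorem exists_pi : Nonempty (W ×ₗ ℕ ≃o W) := by
  apply exists_isoW
  · intro p
    have h1 : (Set.Iio p) ⊆ (fun q : W ×ₗ ℕ => (ofLex q).1) ⁻¹' (Set.Iic (ofLex p).1) := by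
      intro q hq
      have hq' : q < p := hq
      exact Prod.Lex.monotone_fst _ _ hq'.le
    have h2 : ((Set.Iic (ofLex p).1) ×ˢ (Set.univ : Set ℕ)).Countable :=
      (countable_Iic_W _).prod Set.countable_univ
    refine (h2.preimage_of_injOn (f := fun q : W ×ₗ ℕ => ofLex q)
      (fun x _ y _ hxy => ofLex.injective hxy)).mono ?_
    intro q hq
    exact ⟨h1 hq, trivial⟩
  · rw [← mk_W]
    exact Cardinal.mk_le_of_injective (f := fun w : W => (toLex (w, 0) : W ×ₗ ℕ))
      (fun x y h => congrArg (fun q : W ×ₗ ℕ => (ofLex q).1) h)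

/-- The coefficients: finitely supported functions on `W ×ₗ ℕ` with the natural sum. -/
abbrev DW : Type := Colex ((W ×ₗ ℕ) →₀ ℕ)

theorem countable_Iic_lex (p : W ×ₗ ℕ) : (Set.Iic p).Countable := by
  have h2 : ((Set.Iic (ofLex p).1) ×ˢ (Set.univ : Set ℕ)).Countable :=
    (countable_Iic_W _).prod Set.countable_univ
  refine (h2.preimage_of_injOn (f := fun q : W ×ₗ ℕ => ofLex q)
    (fun x _ y _ hxy => ofLex.injective hxy)).mono ?_
  intro q hq
  have hq' : q ≤ p := hq
  exact ⟨Prod.Lex.monotone_fst _ _ hq', trivial⟩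

theorem exists_sigma : ∃ f : DW → W, StrictMono f := by
  apply exists_emb
  intro d
  let K : Set (W ×ₗ ℕ) := ⋃ j ∈ (ofColex d).support, Set.Iic j
  have hK : K.Countable := Set.Countable.biUnion (Finset.countable_toSet _)
    fun j _ => countable_Iic_lex j
  have hsub : ∀ d' < d, ∀ i, (ofColex d') i ≠ 0 → i ∈ K := by
    intro d' hd' i hi
    obtain ⟨j, hj1, hj2⟩ := Finsupp.Colex.lt_iff.1 hd'
    simp only [K, Set.mem_iUnion, Set.mem_Iic, Finsupp.mem_support_iff]
    rcases lt_or_ge j i with h | h
    · refine ⟨i, ?_, le_rfl⟩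
      have := hj1 i h
      rw [← this]
      exact hi
    · exact ⟨j, by omega, h⟩
  have : Countable K := Set.countable_coe_iff.2 hK
  have hinj : Set.InjOn (fun x : DW => Finsupp.subtypeDomain (fun i => i ∈ K) (ofColex x))
      (Set.Iio d) := by
    intro x hx y hy hxy
    apply ofColex.injective
    ext i
    by_cases hi : i ∈ K
    · exact DFunLike.congr_fun hxy (⟨i, hi⟩ : {i // i ∈ K})
    · have hx : (ofColex x) i = 0 := by
        by_contra h
        exact hi (hsub x hx i h)
      have hy : (ofColex y) i = 0 := by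
        by_contra h
        exact hi (hsub y hy i h)
      rw [hx, hy]
  have hc : Countable ({i // i ∈ K} →₀ ℕ) := inferInstance
  exact Set.countable_of_injective_of_countable_image hinj (Set.to_countable _)

end Pool.Agent.R573.TT
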