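import Pool.Agent.R573.TT.Unc

/-!
# Two totally terminating systems whose disjoint union is not totally terminating

`R₁` has countably many symbols and forces the constants `c k` to be cofinal in every well-ordered
monotone model. `R₂` has `ℵ₁` symbols and forces every element of such a model to lie above only
countably many of its constants `d i`.
-/

set_option autoImplicit false

namespace Pool.Agent.R573.TT

open Cardinal Ordinal

universe u v

/-! ### The first system -/

/-- The symbols of the first system. -/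
inductive Op1 : Type
  | c (k : ℕ)
  | u (k : ℕ)

/-- The first signature: constants `c k`, binary `u k`. -/
def S1 : Sig.{0} where
  Op := Op1
  ar
    | .c _ => 0
    | .u _ => 2

/-- constants -/
def tc (k : ℕ) : Term S1 ℕ := Term.app (S := S1) (Op1.c k) Fin.elim0

/-- binary symbols -/
def tu (k : ℕ) (a b : Term S1 ℕ) : Term S1 ℕ := Term.app (S := S1) (Op1.u k) ![a, b]

/-- The first system: `c (k+1) → c k` and `u k (x, c k) → u (k+1) (x, x)`. -/
def R1 : TRS S1 where
  rules := {p | (∃ k, p = (tc (k + 1), tc k)) ∨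
    ∃ k, p = (tu k (.var 0) (tc k), tu (k + 1) (.var 0) (.var 0))}
  lhs_ne_var := by
    rintro p (⟨k, rfl⟩ | ⟨k, rfl⟩) x h <;> cases h
  occurs := by
    rintro p (⟨k, rfl⟩ | ⟨k, rfl⟩) x h
    · obtain ⟨i, _⟩ := h
      exact i.elim0
    · obtain ⟨i, hi⟩ := h
      refine ⟨(0 : Fin 2), ?_⟩
      revert hi
      revert i
      intro (i : Fin 2)
      fin_cases i <;> exact id

theorem two_mono {C : Type*} [LinearOrder C] (F : C → C → C)
    (h0 : ∀ x y b, x < y → F x b < F y b) (h1 : ∀ b x y, x < y → F b x < F b y)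
    (a : Fin 2 → C) (i : Fin 2) (x : C) (hx : x < a i) :
    F (Function.update a i x 0) (Function.update a i x 1) < F (a 0) (a 1) := by
  fin_cases i
  · simpa using h0 _ _ (a 1) hx
  · simpa using h1 (a 0) _ _ hx

theorem one_mono {C : Type*} [LinearOrder C] (F : C → C)
    (h0 : ∀ x y, x < y → F x < F y)
    (a : Fin 1 → C) (i : Fin 1) (x : C) (hx : x < a i) :
    F (Function.update a i x 0) < F (a 0) := by
  obtain rfl : i = 0 := Subsingleton.elim _ _
  simpa using h0 _ _ hx

/-- The binary operations of the model of the first system. -/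
def F1 (k x y : ℕ) : ℕ := x + (x + 1 - k) * (x + 2 - k) / 2 + y

/-- The operations of the model of the first system on `ℕ`. -/
def op1 : ∀ f : S1.Op, (Fin (S1.ar f) → ℕ) → ℕ
  | .c k, _ => k
  | .u k, a => F1 k (a (0 : Fin 2)) (a (1 : Fin 2))

theorem tri_step (n : ℕ) : (n + 1) * (n + 2) / 2 = n * (n + 1) / 2 + (n + 1) := by
  have h : (n + 1) * (n + 2) = n * (n + 1) + (n + 1) * 2 := by ring
  rw [h, Nat.add_mul_div_right _ _ (by norm_num)]

theorem good1 : Good R1.rules op1 := by
  constructor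
  · intro f a i x hx
    cases f with
    | c k => exact i.elim0
    | u k =>
      refine two_mono (F1 k) ?_ ?_ a i x hx
      · intro x y b h
        have h1 : (x + 1 - k) * (x + 2 - k) ≤ (y + 1 - k) * (y + 2 - k) :=
          Nat.mul_le_mul (by omega) (by omega)
        have h2 := Nat.div_le_div_right (c := 2) h1
        simp only [F1]
        omega
      · intro b x y h
        simp only [F1]
        omega
  · rintro p (⟨k, rfl⟩ | ⟨k, rfl⟩) ρ
    · exact Nat.lt_succ_self k
    · show F1 (k + 1) (ρ 0) (ρ 0) < F1 k (ρ 0) k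
      simp only [F1]
      rcases lt_or_ge (ρ 0) k with h | h
      · have h1 : ρ 0 + 1 - (k + 1) = 0 := by omega
        rw [h1]
        simp only [Nat.zero_mul, Nat.zero_div]
        omega
      · obtain ⟨n, hn⟩ := Nat.exists_eq_add_of_le h
        have h1 : ρ 0 + 1 - (k + 1) = n := by omega
        have h2 : ρ 0 + 2 - (k + 1) = n + 1 := by omega
        have h3 : ρ 0 + 1 - k = n + 1 := by omega
        have h4 : ρ 0 + 2 - k = n + 2 := by omega
        rw [h1, h2, h3, h4, tri_step]
        omega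

/-! ### The second system -/

/-- The symbols of the second system. -/
inductive Op2 : Type
  | d (i : W)
  | g (i : W)
  | h (k : ℕ)
  | v (k : ℕ) (i : W)
  | w (i : W) (k : ℕ)

/-- The second signature: constants `d i`, unary `g i`, `h k`, `v k i`, binary `w i k`. -/
def S2 : Sig.{0} where
  Op := Op2
  ar
    | .d _ => 0
    | .g _ => 1
    | .h _ => 1
    | .v _ _ => 1
    | .w _ _ => 2

/-- constants -/
def td (i : W) : Term S2 ℕ := Term.app (S := S2) (Op2.d i) Fin.elim0
/-- unary symbols -/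
def tg (i : W) (a : Term S2 ℕ) : Term S2 ℕ := Term.app (S := S2) (Op2.g i) ![a]
/-- unary symbols -/
def th (k : ℕ) (a : Term S2 ℕ) : Term S2 ℕ := Term.app (S := S2) (Op2.h k) ![a]
/-- unary symbols -/
def tv (k : ℕ) (i : W) (a : Term S2 ℕ) : Term S2 ℕ := Term.app (S := S2) (Op2.v k i) ![a]
/-- binary symbols -/
def tw (i : W) (k : ℕ) (a b : Term S2 ℕ) : Term S2 ℕ := Term.app (S := S2) (Op2.w i k) ![a, b]

/-- The second system. -/
def R2 : TRS S2 where
  rules := {p | (∃ k i, p = (tv k i (th k (.var 0)), tv (k + 1) i (tg i (.var 0)))) ∨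
    ∃ i i' k, i < i' ∧ p = (tw i k (td i') (tg i (.var 0)), tw i' k (.var 0) (th k (.var 0)))}
  lhs_ne_var := by
    rintro p (⟨k, i, rfl⟩ | ⟨i, i', k, _, rfl⟩) x h <;> cases h
  occurs := by
    rintro p (⟨k, i, rfl⟩ | ⟨i, i', k, _, rfl⟩) x h
    · obtain ⟨(j : Fin 1), hj⟩ := h
      obtain rfl : j = 0 := Subsingleton.elim _ _
      obtain ⟨(j : Fin 1), hj⟩ := hj
      obtain rfl : j = 0 := Subsingleton.elim _ _
      exact ⟨(0 : Fin 1), (0 : Fin 1), hj⟩
    · obtain ⟨(j : Fin 2), hj⟩ := h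
      refine ⟨(1 : Fin 2), (0 : Fin 1), ?_⟩
      fin_cases j
      · exact hj
      · obtain ⟨(j : Fin 1), hj⟩ := hj
        obtain rfl : j = 0 := Subsingleton.elim _ _
        exact hj

/-! ### The model of the second system -/

section Model2

variable (π : W ×ₗ ℕ ≃o W) (σ : DW → W) (e : W → W → ℕ)

/-- The weight used for the rules with symbols `w`. -/
noncomputable def lam (i : W) (k : ℕ) (x : W) (n : ℕ) : ℕ :=
  if e x i ≤ n then 1 + Set.ncard {i' : W | i < i' ∧ i' ≤ x ∧ e x i' ≤ k} else 0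

open Classical in
/-- The value of `w i k` before the embedding into `W`. -/
noncomputable def TU (i : W) (k : ℕ) (y x : W) (n : ℕ) : DW :=
  toColex (Finsupp.single (toLex (y, 0)) 1 + (Finsupp.single (toLex (x, 2)) 1
    + (Finsupp.single (toLex (x, 1)) (lam e i k x n) + Finsupp.single (toLex (x, 0)) n)))

open Classical in
theorem TU_apply (i : W) (k : ℕ) (y x : W) (n : ℕ) (j : W ×ₗ ℕ) :
    (ofColex (TU e i k y x n)) j = (if toLex (y, 0) = j then 1 else 0)
      + ((if toLex (x, 2) = j then 1 else 0) + ((if toLex (x, 1) = j then lam e i k x n else 0)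
        + (if toLex (x, 0) = j then n else 0))) := by
  simp only [TU, ofColex_toColex, Finsupp.add_apply, Finsupp.single_apply]

theorem lam_mono (i : W) (k : ℕ) (x : W) {m n : ℕ} (h : m ≤ n) :
    lam e i k x m ≤ lam e i k x n := by
  unfold lam
  split_ifs with h1 h2
  · exact le_rfl
  · omega
  · omega
  · exact le_rfl

theorem lam_lt (he : ∀ x, Set.InjOn (e x) (Set.Iic x)) {i i' : W} (hi : i < i') (k : ℕ) (x : W)
    (hx : i' ≤ x) : lam e i' k x k < lam e i k x (e x i) := by
  unfold lam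
  rw [if_pos le_rfl]
  split_ifs with h1
  · have hfin : {j : W | i < j ∧ j ≤ x ∧ e x j ≤ k}.Finite := by
      refine Set.Finite.of_finite_image (f := e x) ((Set.finite_Iic k).subset ?_) ?_
      · rintro _ ⟨j, hj, rfl⟩
        exact hj.2.2
      · intro a ha b hb hab
        exact he x ha.2.1 hb.2.1 hab
    have hlt : {j : W | i' < j ∧ j ≤ x ∧ e x j ≤ k}.ncard
        < {j : W | i < j ∧ j ≤ x ∧ e x j ≤ k}.ncard := by
      refine Set.ncard_lt_ncard ⟨?_, ?_⟩ hfin
      · rintro j ⟨h1, h2, h3⟩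
        exact ⟨hi.trans h1, h2, h3⟩
      · intro hsub
        have h2 : i' ∈ {j : W | i < j ∧ j ≤ x ∧ e x j ≤ k} := ⟨hi, hx, h1⟩
        exact lt_irrefl _ (hsub h2).1
    omega
  · omega

theorem TU_lt_left (i : W) (k : ℕ) {y y' : W} (h : y < y') (x : W) (n : ℕ) :
    TU e i k y x n < TU e i k y' x n := by
  unfold TU
  have h1 : (toColex (Finsupp.single (toLex (y, 0)) 1) : DW)
      < toColex (Finsupp.single (toLex (y', 0)) 1) := by
    rw [Finsupp.Colex.single_lt_iff, Prod.Lex.toLex_lt_toLex]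
    exact Or.inl h
  have h2 := add_lt_add_of_lt_of_le h1 (le_refl (toColex (Finsupp.single (toLex (x, 2)) 1
    + (Finsupp.single (toLex (x, 1)) (lam e i k x n) + Finsupp.single (toLex (x, 0)) n)) : DW))
  exact h2

theorem TU_lt_right (i : W) (k : ℕ) (y : W) {x x' : W} {n n' : ℕ}
    (h : x < x' ∨ x = x' ∧ n < n') : TU e i k y x n < TU e i k y x' n' := by
  classical
  rw [Finsupp.Colex.lt_iff]
  rcases h with h | ⟨rfl, h⟩
  · refine ⟨toLex (x', 2), ?_, ?_⟩
    · intro j hj
      rw [TU_apply, TU_apply]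
      have hj2 : toLex (x', 2) < j := hj
      have h0 : ∀ m ≤ 2, toLex (x', m) ≠ j := by
        rintro m hm rfl
        rw [Prod.Lex.toLex_lt_toLex] at hj2
        rcases hj2 with h | h
        · exact lt_irrefl _ h
        · exact absurd h.2 (not_lt.2 hm)
      have h0' : ∀ m : ℕ, toLex (x, m) ≠ j := by
        rintro m rfl
        rw [Prod.Lex.toLex_lt_toLex] at hj2
        rcases hj2 with h' | h'
        · exact lt_asymm h h'
        · exact absurd h'.1 h.ne'
      rw [if_neg (h0 2 le_rfl), if_neg (h0 1 (by norm_num)), if_neg (h0 0 (by norm_num)),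
        if_neg (h0' 2), if_neg (h0' 1), if_neg (h0' 0)]
    · rw [TU_apply, TU_apply]
      have h0 : ∀ m ≠ 2, toLex (x', m) ≠ (toLex (x', 2) : W ×ₗ ℕ) := by
        intro m hm h'
        exact hm (congrArg (fun q : W ×ₗ ℕ => (ofLex q).2) h')
      have h0' : ∀ m : ℕ, toLex (x, m) ≠ (toLex (x', 2) : W ×ₗ ℕ) := by
        intro m h'
        exact h.ne (congrArg (fun q : W ×ₗ ℕ => (ofLex q).1) h')
      rw [if_pos rfl, if_neg (h0 1 (by norm_num)), if_neg (h0 0 (by norm_num)),
        if_neg (h0' 2), if_neg (h0' 1), if_neg (h0' 0)]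
      omega
  · have hl := lam_mono e i k x h.le
    have hne : ∀ m m' : ℕ, m ≠ m' → (toLex (x, m) : W ×ₗ ℕ) ≠ toLex (x, m') := by
      intro m m' hm h'
      exact hm (congrArg (fun q : W ×ₗ ℕ => (ofLex q).2) h')
    rcases hl.eq_or_lt with hl | hl
    · refine ⟨toLex (x, 0), ?_, ?_⟩
      · intro j hj
        rw [TU_apply, TU_apply, hl]
        have h0 : toLex (x, 0) ≠ j := (show toLex (x, 0) < j from hj).ne
        rw [if_neg h0, if_neg h0]
      · rw [TU_apply, TU_apply, if_neg (hne 2 0 (by norm_num)), if_neg (hne 1 0 (by norm_num)),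
          if_neg (hne 1 0 (by norm_num)), if_pos rfl, if_pos rfl]
        omega
    · refine ⟨toLex (x, 1), ?_, ?_⟩
      · intro j hj
        rw [TU_apply, TU_apply]
        have h1 : toLex (x, 1) ≠ j := (show toLex (x, 1) < j from hj).ne
        have h0 : toLex (x, 0) ≠ j := by
          refine (lt_trans ?_ (show toLex (x, 1) < j from hj)).ne
          rw [Prod.Lex.toLex_lt_toLex]
          exact Or.inr ⟨rfl, by norm_num⟩
        rw [if_neg h0, if_neg h0, if_neg h1, if_neg h1]
      · rw [TU_apply, TU_apply, if_neg (hne 2 1 (by norm_num)), if_neg (hne 0 1 (by norm_num)),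
          if_neg (hne 0 1 (by norm_num)), if_pos rfl, if_pos rfl]
        omega

theorem TU_rule (he : ∀ x, Set.InjOn (e x) (Set.Iic x)) {i i' : W} (hi : i < i') (k : ℕ)
    (x : W) : TU e i' k x x k < TU e i k i' x (e x i) := by
  classical
  rw [Finsupp.Colex.lt_iff]
  rcases lt_or_ge x i' with h | h
  · refine ⟨toLex (i', 0), ?_, ?_⟩
    · intro j hj
      rw [TU_apply, TU_apply]
      have hj2 : toLex (i', 0) < j := hj
      have h0 : toLex (i', 0) ≠ j := hj2.ne
      have h0' : ∀ m : ℕ, toLex (x, m) ≠ j := by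
        rintro m rfl
        rw [Prod.Lex.toLex_lt_toLex] at hj2
        rcases hj2 with h' | h'
        · exact lt_asymm h h'
        · exact absurd h'.1 h.ne'
      rw [if_neg h0, if_neg (h0' 2), if_neg (h0' 1), if_neg (h0' 0), if_neg (h0' 1),
        if_neg (h0' 0), if_neg (h0' 0)]
    · rw [TU_apply, TU_apply]
      have h0' : ∀ m : ℕ, toLex (x, m) ≠ (toLex (i', 0) : W ×ₗ ℕ) := by
        intro m h'
        exact h.ne (congrArg (fun q : W ×ₗ ℕ => (ofLex q).1) h')
      rw [if_pos rfl, if_neg (h0' 2), if_neg (h0' 1), if_neg (h0' 0), if_neg (h0' 1),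
        if_neg (h0' 0), if_neg (h0' 0)]
      omega
  · refine ⟨toLex (x, 1), ?_, ?_⟩
    · intro j hj
      have hj2 : toLex (x, 1) < j := hj
      rw [TU_apply, TU_apply]
      have h1 : toLex (x, 1) ≠ j := hj2.ne
      have h0 : toLex (x, 0) ≠ j := by
        refine (lt_trans ?_ hj2).ne
        rw [Prod.Lex.toLex_lt_toLex]
        exact Or.inr ⟨rfl, by norm_num⟩
      have h3 : toLex (i', 0) ≠ j := by
        refine (lt_trans ?_ hj2).ne
        rw [Prod.Lex.toLex_lt_toLex]
        rcases h.eq_or_lt with h | h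
        · exact Or.inr ⟨h, by norm_num⟩
        · exact Or.inl h
      rw [if_neg h0, if_neg h0, if_neg h1, if_neg h1, if_neg h3, if_neg h0]
    · have hne : ∀ m m' : ℕ, m ≠ m' → (toLex (x, m) : W ×ₗ ℕ) ≠ toLex (x, m') := by
        intro m m' hm h'
        exact hm (congrArg (fun q : W ×ₗ ℕ => (ofLex q).2) h')
      have hne' : (toLex (i', 0) : W ×ₗ ℕ) ≠ toLex (x, 1) := by
        intro h'
        exact absurd (congrArg (fun q : W ×ₗ ℕ => (ofLex q).2) h') (by norm_num)
      rw [TU_apply, TU_apply, if_neg (hne 2 1 (by norm_num)), if_neg (hne 0 1 (by norm_num)),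
        if_neg (hne 0 1 (by norm_num)), if_pos rfl, if_pos rfl, if_neg hne']
      have := lam_lt e he hi k x h
      omega

/-- The value of `v k i`. -/
noncomputable def Fv (k : ℕ) (i y : W) : W :=
  π (toLex ((ofLex (π.symm y)).1, (e (ofLex (π.symm y)).1 i + 1 - k)
    * (e (ofLex (π.symm y)).1 i + 1) + (ofLex (π.symm y)).2))

/-- The value of `w i k`. -/
noncomputable def Fw (i : W) (k : ℕ) (y z : W) : W :=
  σ (TU e i k y (ofLex (π.symm z)).1 (ofLex (π.symm z)).2)

/-- The operations of the model of the second system on `W`. -/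
noncomputable def op2 : ∀ f : S2.Op, (Fin (S2.ar f) → W) → W
  | .d i, _ => i
  | .g i, a => π (toLex (a (0 : Fin 1), e (a (0 : Fin 1)) i))
  | .h k, a => π (toLex (a (0 : Fin 1), k))
  | .v k i, a => Fv π e k i (a (0 : Fin 1))
  | .w i k, a => Fw π σ e i k (a (0 : Fin 2)) (a (1 : Fin 2))

theorem good2 (hσ : StrictMono σ) (he : ∀ x, Set.InjOn (e x) (Set.Iic x)) :
    Good R2.rules (op2 π σ e) := by
  constructor
  · intro f a i x hx
    cases f with
    | d k => exact i.elim0
    | g k =>
      refine one_mono (fun z => π (toLex (z, e z k))) ?_ a i x hx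
      intro x y h
      refine π.lt_iff_lt.2 ?_
      rw [Prod.Lex.toLex_lt_toLex]
      exact Or.inl h
    | h k =>
      refine one_mono (fun z => π (toLex (z, k))) ?_ a i x hx
      intro x y h
      refine π.lt_iff_lt.2 ?_
      rw [Prod.Lex.toLex_lt_toLex]
      exact Or.inl h
    | v k j =>
      refine one_mono (Fv π e k j) ?_ a i x hx
      intro x y h
      refine π.lt_iff_lt.2 ?_
      rw [Prod.Lex.toLex_lt_toLex]
      have h1 := π.symm.lt_iff_lt.2 h
      rw [Prod.Lex.lt_iff] at h1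
      rcases h1 with h1 | ⟨h1, h2⟩
      · exact Or.inl h1
      · refine Or.inr ⟨h1, ?_⟩
        rw [h1]
        exact Nat.add_lt_add_left h2 _
    | w k j =>
      refine two_mono (Fw π σ e k j) ?_ ?_ a i x hx
      · intro x y b h
        exact hσ (TU_lt_left e k j h _ _)
      · intro b x y h
        have h1 := π.symm.lt_iff_lt.2 h
        rw [Prod.Lex.lt_iff] at h1
        exact hσ (TU_lt_right e k j b h1)
  · rintro p (⟨k, i, rfl⟩ | ⟨i, i', k, hi, rfl⟩) ρ
    · show Fv π e (k + 1) i (π (toLex (ρ 0, e (ρ 0) i))) < Fv π e k i (π (toLex (ρ 0, k)))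
      unfold Fv
      refine π.lt_iff_lt.2 ?_
      rw [OrderIso.symm_apply_apply, OrderIso.symm_apply_apply, Prod.Lex.toLex_lt_toLex]
      right
      simp only [ofLex_toLex, true_and]
      generalize e (ρ 0) i = m
      rcases lt_or_ge m k with h | h
      · have h1 : m + 1 - (k + 1) = 0 := by omega
        have h2 : m + 1 - k = 0 := by omega
        rw [h1, h2]
        omega
      · obtain ⟨n, rfl⟩ := Nat.exists_eq_add_of_le h
        have h1 : k + n + 1 - (k + 1) = n := by omega
        have h2 : k + n + 1 - k = n + 1 := by omega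
        rw [h1, h2]
        nlinarith
    · show Fw π σ e i' k (ρ 0) (π (toLex (ρ 0, k)))
        < Fw π σ e i k i' (π (toLex (ρ 0, e (ρ 0) i)))
      unfold Fw
      rw [OrderIso.symm_apply_apply, OrderIso.symm_apply_apply]
      exact hσ (TU_rule e he hi k (ρ 0))

end Model2

instance : Nonempty W := by
  rw [← Cardinal.mk_ne_zero_iff, mk_W]
  exact (aleph_pos _).ne'

theorem exists_e : ∃ e : W → W → ℕ, ∀ x, Set.InjOn (e x) (Set.Iic x) := by
  have h : ∀ x : W, ∃ f : W → ℕ, Set.InjOn f (Set.Iic x) := fun x =>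
    (Set.countable_iff_exists_injOn).1 (countable_Iic_W x)
  choose e he using h
  exact ⟨e, he⟩

theorem tt1 : TotallyTerminating R1 := of_good R1 good1

theorem tt2 : TotallyTerminating R2 := by
  obtain ⟨π⟩ := exists_pi
  obtain ⟨σ, hσ⟩ := exists_sigma
  obtain ⟨e, he⟩ := exists_e
  exact of_good R2 (good2 π σ e hσ he)

/-! ### The union has no model -/

theorem no_desc {C : Type*} [LinearOrder C] [WellFoundedLT C] (s : ℕ → C)
    (h : ∀ n, s (n + 1) < s n) : False :=
  (RelEmbedding.natGT (r := (· < ·)) s h).not_wellFounded (wellFounded_lt)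

theorem no_model {C : Type v} [LinearOrder C] [WellFoundedLT C] (c : ℕ → C) (U : ℕ → C → C → C)
    (hU : ∀ k a, StrictMono (U k a))
    (hu : ∀ k x, U (k + 1) x x < U k x (c k))
    (D : W → C) (G : W → C → C) (H : ℕ → C → C) (V : ℕ → W → C → C)
    (hV : ∀ k i, StrictMono (V k i))
    (hv : ∀ k i x, V (k + 1) i (G i x) < V k i (H k x))
    (Wf : W → ℕ → C → C → C) (hW0 : ∀ i k a, StrictMono (Wf i k a))
    (hW1 : ∀ i k a, StrictMono fun b => Wf i k b a)
    (hw : ∀ i i' k x, i < i' → Wf i' k x (H k x) < Wf i k (D i') (G i x)) : False := by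
  have h1 : ∀ b, ∃ k, b ≤ c k := by
    intro b
    by_contra hcon
    push Not at hcon
    refine no_desc (fun k => U k b b) fun k => ?_
    exact (hu k b).trans_le ((hU k b).monotone (hcon k).le)
  have h2 : ∀ x i, ∃ k, G i x ≤ H k x := by
    intro x i
    by_contra hcon
    push Not at hcon
    refine no_desc (fun k => V k i (H k x)) fun k => ?_
    exact ((hV _ _).monotone (hcon (k + 1)).le).trans_lt (hv k i x)
  have h3 : ∀ x k, {i | D i ≤ x ∧ G i x ≤ H k x}.Finite := by
    intro x k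
    by_contra hinf
    have hinf : {i | D i ≤ x ∧ G i x ≤ H k x}.Infinite := hinf
    let f := hinf.natEmbedding
    obtain ⟨g, hg⟩ := exists_increasing_or_nonincreasing_subseq (· < ·)
      (fun n => (f n : W))
    rcases hg with hg | hg
    · refine no_desc (fun n => Wf (f (g n)) k (D (f (g (n + 1)))) (G (f (g n)) x)) fun n => ?_
      refine lt_of_le_of_lt ?_ (hw _ _ k x (hg n (n + 1) (Nat.lt_succ_self n)))
      refine ((hW1 _ _ _).monotone (f (g (n + 1 + 1))).2.1).trans ?_
      exact (hW0 _ _ _).monotone (f (g (n + 1))).2.2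
    · refine no_desc (fun n => (f (g n) : W)) fun n => ?_
      refine lt_of_le_of_ne (not_lt.1 (hg n (n + 1) (Nat.lt_succ_self n))) ?_
      intro h
      have h' := g.injective (f.injective (Subtype.ext h))
      omega
  have h4 : (Set.univ : Set W).Countable := by
    have : (Set.univ : Set W) = ⋃ n, ⋃ k, {i | D i ≤ c n ∧ G i (c n) ≤ H k (c n)} := by
      refine (Set.eq_univ_of_forall fun i => ?_).symm
      obtain ⟨n, hn⟩ := h1 (D i)
      obtain ⟨k, hk⟩ := h2 (c n) i
      exact Set.mem_iUnion.2 ⟨n, Set.mem_iUnion.2 ⟨k, hn, hk⟩⟩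
    rw [this]
    exact Set.countable_iUnion fun n => Set.countable_iUnion fun k => (h3 _ _).countable
  have h5 : #W ≤ ℵ₀ := Cardinal.mk_le_aleph0_iff.2 (Set.countable_univ_iff.1 h4)
  rw [mk_W, ← Cardinal.succ_aleph0] at h5
  exact absurd h5 (not_le.2 (Order.lt_succ _))

section Eval

variable {C : Type v} (op : ∀ f : (S1.sum S2).Op, (Fin ((S1.sum S2).ar f) → C) → C) (ρ : ℕ → C)

theorem ev_c (k : ℕ) : ((tc k).inl S2).eval op ρ = op (Sum.inl (Op1.c k)) Fin.elim0 :=
  congrArg (op (Sum.inl (Op1.c k))) (funext fun i => Fin.elim0 i)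

theorem ev_u (k : ℕ) (a b : Term S1 ℕ) : ((tu k a b).inl S2).eval op ρ
    = op (Sum.inl (Op1.u k)) ![(a.inl S2).eval op ρ, (b.inl S2).eval op ρ] := by
  refine congrArg (op (Sum.inl (Op1.u k))) (funext fun (i : Fin 2) => ?_)
  fin_cases i <;> rfl

theorem ev_d (i : W) : ((td i).inr S1).eval op ρ = op (Sum.inr (Op2.d i)) Fin.elim0 :=
  congrArg (op (Sum.inr (Op2.d i))) (funext fun i => Fin.elim0 i)

theorem ev_g (i : W) (a : Term S2 ℕ) : ((tg i a).inr S1).eval op ρ
    = op (Sum.inr (Op2.g i)) ![(a.inr S1).eval op ρ] := by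
  refine congrArg (op (Sum.inr (Op2.g i))) (funext fun (i : Fin 1) => ?_)
  fin_cases i; rfl

theorem ev_h (k : ℕ) (a : Term S2 ℕ) : ((th k a).inr S1).eval op ρ
    = op (Sum.inr (Op2.h k)) ![(a.inr S1).eval op ρ] := by
  refine congrArg (op (Sum.inr (Op2.h k))) (funext fun (i : Fin 1) => ?_)
  fin_cases i; rfl

theorem ev_v (k : ℕ) (i : W) (a : Term S2 ℕ) : ((tv k i a).inr S1).eval op ρ
    = op (Sum.inr (Op2.v k i)) ![(a.inr S1).eval op ρ] := by
  refine congrArg (op (Sum.inr (Op2.v k i))) (funext fun (i : Fin 1) => ?_)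
  fin_cases i; rfl

theorem ev_w (i : W) (k : ℕ) (a b : Term S2 ℕ) : ((tw i k a b).inr S1).eval op ρ
    = op (Sum.inr (Op2.w i k)) ![(a.inr S1).eval op ρ, (b.inr S1).eval op ρ] := by
  refine congrArg (op (Sum.inr (Op2.w i k))) (funext fun (i : Fin 2) => ?_)
  fin_cases i <;> rfl

end Eval

section Strict

variable {C : Type v} [LinearOrder C]
  {op : ∀ f : (S1.sum S2).Op, (Fin ((S1.sum S2).ar f) → C) → C}
  (hm : ∀ f (c : Fin ((S1.sum S2).ar f) → C) i x, x < c i → op f (Function.update c i x) < op f c)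

include hm

theorem st_u (k : ℕ) (a : C) : StrictMono fun b => op (Sum.inl (Op1.u k)) ![a, b] := by
  intro x y hxy
  have h1 := hm (Sum.inl (Op1.u k)) ![a, y] (1 : Fin 2) x hxy
  have h2 : Function.update ![a, y] (1 : Fin 2) x = ![a, x] := by
    funext j
    fin_cases j <;> rfl
  exact (congrArg (op (Sum.inl (Op1.u k))) h2).symm.trans_lt h1

theorem st_v (k : ℕ) (i : W) : StrictMono fun b => op (Sum.inr (Op2.v k i)) ![b] := by
  intro x y hxy
  have h1 := hm (Sum.inr (Op2.v k i)) ![y] (0 : Fin 1) x hxy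
  have h2 : Function.update ![y] (0 : Fin 1) x = ![x] := by
    funext j
    fin_cases j; rfl
  exact (congrArg (op (Sum.inr (Op2.v k i))) h2).symm.trans_lt h1

theorem st_w0 (i : W) (k : ℕ) (a : C) : StrictMono fun b => op (Sum.inr (Op2.w i k)) ![a, b] := by
  intro x y hxy
  have h1 := hm (Sum.inr (Op2.w i k)) ![a, y] (1 : Fin 2) x hxy
  have h2 : Function.update ![a, y] (1 : Fin 2) x = ![a, x] := by
    funext j
    fin_cases j <;> rfl
  exact (congrArg (op (Sum.inr (Op2.w i k))) h2).symm.trans_lt h1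

theorem st_w1 (i : W) (k : ℕ) (a : C) : StrictMono fun b => op (Sum.inr (Op2.w i k)) ![b, a] := by
  intro x y hxy
  have h1 := hm (Sum.inr (Op2.w i k)) ![y, a] (0 : Fin 2) x hxy
  have h2 : Function.update ![y, a] (0 : Fin 2) x = ![x, a] := by
    funext j
    fin_cases j <;> rfl
  exact (congrArg (op (Sum.inr (Op2.w i k))) h2).symm.trans_lt h1

end Strict

/-- The union of the two systems is not totally terminating. -/
theorem not_tt : ¬ TotallyTerminating (R1.union R2) := by
  intro h
  obtain ⟨_, _, op, hop⟩ := exists_good h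
  refine no_model (fun k => op (Sum.inl (Op1.c k)) Fin.elim0)
    (fun k a b => op (Sum.inl (Op1.u k)) ![a, b]) (st_u hop.mono) ?_
    (fun i => op (Sum.inr (Op2.d i)) Fin.elim0)
    (fun i a => op (Sum.inr (Op2.g i)) ![a])
    (fun k a => op (Sum.inr (Op2.h k)) ![a])
    (fun k i a => op (Sum.inr (Op2.v k i)) ![a]) (st_v hop.mono) ?_
    (fun i k a b => op (Sum.inr (Op2.w i k)) ![a, b]) (st_w0 hop.mono) (st_w1 hop.mono) ?_
  · intro k x
    have h1 := hop.rule _ (Or.inl ⟨_, Or.inr ⟨k, rfl⟩, rfl⟩) fun _ => x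
    simp only [ev_u, ev_c] at h1
    exact h1
  · intro k i x
    have h1 := hop.rule _ (Or.inr ⟨_, Or.inl ⟨k, i, rfl⟩, rfl⟩) fun _ => x
    simp only [ev_v, ev_g, ev_h] at h1
    exact h1
  · intro i i' k x hi
    have h1 := hop.rule _ (Or.inr ⟨_, Or.inr ⟨i, i', k, hi, rfl⟩, rfl⟩) fun _ => x
    simp only [ev_w, ev_d, ev_g, ev_h] at h1
    exact h1

instance : Countable Op1 := by
  let f : Op1 → ℕ ⊕ ℕ := fun x => match x with
    | .c k => Sum.inl k
    | .u k => Sum.inr k
  refine (Function.Injective.countable (f := f) ?_)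
  rintro (k | k) (l | l) h
  · simp only [f, Sum.inl.injEq] at h
    rw [h]
  · cases h
  · cases h
  · simp only [f, Sum.inr.injEq] at h
    rw [h]

theorem mk_Op2 : #Op2 = ℵ_ 1 := by
  apply le_antisymm
  · let f : Op2 → (W ⊕ W) ⊕ (ℕ ⊕ ((ℕ × W) ⊕ (W × ℕ))) := fun x => match x with
      | .d i => Sum.inl (Sum.inl i)
      | .g i => Sum.inl (Sum.inr i)
      | .h k => Sum.inr (Sum.inl k)
      | .v k i => Sum.inr (Sum.inr (Sum.inl (k, i)))
      | .w i k => Sum.inr (Sum.inr (Sum.inr (i, k)))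
    have hf : Function.Injective f := by
      rintro (i | i | k | ⟨k, i⟩ | ⟨i, k⟩) (j | j | l | ⟨l, j⟩ | ⟨j, l⟩) h <;>
        simp_all [f]
    refine (Cardinal.mk_le_of_injective hf).trans ?_
    simp only [Cardinal.mk_sum, Cardinal.mk_prod, Cardinal.lift_id, mk_W, Cardinal.mk_nat]
    have h1 : ℵ₀ ≤ ℵ_ (1 : Ordinal.{0}) := aleph0_le_aleph 1
    rw [Cardinal.add_eq_self h1, Cardinal.aleph0_mul_eq h1, Cardinal.mul_aleph0_eq h1,
      Cardinal.add_eq_self h1, Cardinal.add_eq_right h1 h1, Cardinal.add_eq_self h1]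
  · rw [← mk_W]
    exact Cardinal.mk_le_of_injective (f := Op2.d) (fun i j h => by cases h; rfl)

end Pool.Agent.R573.TT
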